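import Pool.Agent.H.MP_b01f87_al.J

set_option autoImplicit false

namespace Pool.Agent.Results.MP_b01f87_al.Soluble

universe u v

/-- The group has a total order invariant under left and right multiplication. -/
def Orderable (G : Type u) [Group G] : Prop :=
  ∃ _ : LinearOrder G, ∀ f g h : G, f < g → h * f < h * g ∧ f * h < g * h

/-- Every right order of the group is a Conrad right order. -/
def AllConrad (G : Type u) [Group G] : Prop :=
  ∀ _ : LinearOrder G, (∀ f g h : G, f < g → f * h < g * h) →
    ∀ f g : G, 1 < f → f < g → ∃ m : ℕ, 0 < m ∧ g < f * g ^ m * f⁻¹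

open Pool.Agent.H.MP_b01f87_al

theorem result (G : Type u) [Group G] (ho : Orderable G) (hc : AllConrad G) (H : Subgroup G)
    (hs : Group.IsSolvable G ∨ ∀ K ≤ H, K.FG → Group.IsSolvable K) :
    AllConrad H ∧ ∀ K ≤ H, K.FG → Group.IsNilpotent K := by
  have key : ∀ K ≤ H, K.FG → Group.IsNilpotent K := fun K a b => by
    have : Group.IsSolvable K := hs.elim (fun _ => inferInstance) fun h => h K a b
    exact loc_nil (bc_of ho) (nb_of (bc_of ho) hc) b
  exact ⟨conrad (tm_sub key), key⟩

end Pool.Agent.Results.MP_b01f87_al.Soluble
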